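import Pool.Agent.Helper87.RAM.Final

set_option autoImplicit false

namespace Pool.Agent.Results.MP_a35923_lc.NoBoundedScheme

open Pool.Agent.Helper87.RAM

/-- **No approximation scheme for planar risk-aware path planning with a number of operations
bounded in terms of `n` and `1/ε`.**  For every real random access machine `M` (arithmetic,
comparisons, exponentials, roots, arbitrary real constants, an arbitrary set of control states),
every factor `C`, every `ε` and every number `N` of steps there is an instance with a single
nondegenerate risk triangle (`n = 3`), no obstacle, and start and goal in the safe region, on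
which `M` does not, within `N` steps, output a collision-free path from the start to the goal of
cost at most `C * OPT`. -/
theorem result (M : Machine) (N : ℕ) (ε C : ℝ) :
    ∃ A B D s g : ℂ, AffineIndependent ℝ ![A, B, D] ∧
      s ∈ Xsafe ∅ (convexHull ℝ {A, B, D}) ∧ g ∈ Xsafe ∅ (convexHull ℝ {A, B, D}) ∧
      ¬ Succeeds M N ε C A B D s g :=
  main M N ε C

end Pool.Agent.Results.MP_a35923_lc.NoBoundedScheme
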